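import Pool.Agent.W680.WH.Stm

set_option autoImplicit false

open scoped ComplexConjugate InnerProductSpace
open ContinuousLinearMap Filter Pool.Agent.W680.WH

namespace Pool.Agent.W303.WH

/-! ### abstract algebra -/

section alg
variable {A : Type*} [Ring A] [Algebra ℂ A]

lemma alg1 (r : ℂ) (z w g : A) (hg1 : (1 - r • z) * g = 1)
    (h : w * ((z - r • 1) * g) = z * w) : (1 + r • z) * w = (1 - r ^ 2) • (w * g) := by
  calc (1 + r • z) * w = w + r • (z * w) := by rw [add_mul, one_mul, smul_mul_assoc]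
    _ = w * ((1 - r • z) * g) + r • (w * ((z - r • 1) * g)) := by rw [h, hg1, mul_one]
    _ = (1 - r ^ 2) • (w * g) := by
      simp only [sub_mul, mul_sub, one_mul, smul_mul_assoc, mul_smul_comm, smul_sub, smul_smul]
      module

lemma alg2 (r : ℂ) (z w g : A) (hg1 : (1 - r • z) * g = 1) (hg2 : g * (1 - r • z) = 1)
    (h : w * ((z - r • 1) * g) = z * w) : (1 + r • z) * w * z = (z + r • 1) * w := by
  have hzg : z * g = g * z := by
    have e1 : z * (1 - r • z) = (1 - r • z) * z := by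
      simp only [mul_sub, sub_mul, one_mul, mul_one, smul_mul_assoc, mul_smul_comm]
    calc z * g = (g * (1 - r • z)) * z * g := by rw [hg2, one_mul]
      _ = g * ((1 - r • z) * z) * g := by simp only [mul_assoc]
      _ = g * (z * (1 - r • z)) * g := by rw [e1]
      _ = g * z * ((1 - r • z) * g) := by simp only [mul_assoc]
      _ = g * z := by rw [hg1, mul_one]
  rw [alg1 r z w g hg1 h, smul_mul_assoc, mul_assoc w g z, ← hzg]
  calc (1 - r ^ 2) • (w * (z * g))
      = w * ((z - r • 1) * g) + r • (w * ((1 - r • z) * g)) := by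
        simp only [sub_mul, mul_sub, one_mul, smul_mul_assoc, mul_smul_comm, smul_sub, smul_smul]
        module
    _ = z * w + r • w := by rw [h, hg1, mul_one]
    _ = (z + r • 1) * w := by rw [add_mul, smul_mul_assoc, one_mul]


lemma alg3 (r : ℂ) (z w g y h : A) (hg2 : g * (1 - r • z) = 1) (hh : h * (1 + r • z) = 1)
    (e : (1 + r • z) * w = (1 - r ^ 2) • (w * g))
    (hy : w * ((1 - r ^ 2) • (g * y * g)) = y * w) :
    (1 + r • z) * w * y = (1 - r ^ 2) • (y * h * w) := by
  have h1 : w * (1 - r • z) = (1 - r ^ 2) • (h * w) := by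
    calc w * (1 - r • z) = h * (1 + r • z) * w * (1 - r • z) := by rw [hh, one_mul]
      _ = h * ((1 + r • z) * w) * (1 - r • z) := by simp only [mul_assoc]
      _ = (1 - r ^ 2) • (h * w * (g * (1 - r • z))) := by
        rw [e]; simp only [mul_assoc, mul_smul_comm, smul_mul_assoc]
      _ = (1 - r ^ 2) • (h * w) := by rw [hg2, mul_one]
  calc (1 + r • z) * w * y = (1 - r ^ 2) • (w * (g * y)) := by
        rw [e]; simp only [mul_assoc, smul_mul_assoc]
    _ = (1 - r ^ 2) • (w * (g * y * (g * (1 - r • z)))) := by rw [hg2, mul_one]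
    _ = (w * ((1 - r ^ 2) • (g * y * g))) * (1 - r • z) := by
        simp only [mul_assoc, smul_mul_assoc, mul_smul_comm]
    _ = y * (w * (1 - r • z)) := by rw [hy, mul_assoc]
    _ = (1 - r ^ 2) • (y * h * w) := by rw [h1, mul_smul_comm, mul_assoc]

lemma alg4a (r : ℂ) (s t v : A) (h : s * v * (1 + r • s) = v * (s + r • 1))
    (hts : t * s = 1) (hst : s * t = 1) : v * (t + r • 1) = t * v * (1 + r • t) := by
  calc v * (t + r • 1) = t * s * v * (t + r • 1) := by rw [hts, one_mul]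
    _ = t * s * v * ((1 + r • s) * t) := by
        congr 1
        rw [add_mul, one_mul, smul_mul_assoc, hst]
    _ = t * (s * v * (1 + r • s)) * t := by simp only [mul_assoc]
    _ = t * (v * (s + r • 1)) * t := by rw [h]
    _ = t * v * ((s + r • 1) * t) := by simp only [mul_assoc]
    _ = t * v * (1 + r • t) := by rw [add_mul, hst, smul_mul_assoc, one_mul]

lemma alg4b (r : ℂ) (t v w k : A) (h : v * (t + r • 1) = t * v * (1 + r • t))
    (hwv : w * v = 1) (hvw : v * w = 1) (hk : (1 + r • t) * k = 1) :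
    (1 + r • t) * w * t = (t + r • 1) * w := by
  have h1 : t + r • 1 = w * t * v * (1 + r • t) := by
    calc t + r • 1 = w * v * (t + r • 1) := by rw [hwv, one_mul]
      _ = w * (v * (t + r • 1)) := by rw [mul_assoc]
      _ = w * (t * v * (1 + r • t)) := by rw [h]
      _ = w * t * v * (1 + r • t) := by simp only [mul_assoc]
  have h2 : w * t * v = (t + r • 1) * k := by
    rw [h1, mul_assoc (w * t * v), hk, mul_one]
  have h3 : (1 + r • t) * (t + r • 1) = (t + r • 1) * (1 + r • t) := by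
    simp only [add_mul, mul_add, one_mul, mul_one, smul_mul_assoc, mul_smul_comm]
    module
  calc (1 + r • t) * w * t = (1 + r • t) * (w * t * v) * w := by
        simp only [mul_assoc, hvw, mul_one]
    _ = (1 + r • t) * ((t + r • 1) * k) * w := by rw [h2]
    _ = (1 + r • t) * (t + r • 1) * k * w := by simp only [mul_assoc]
    _ = (t + r • 1) * (1 + r • t) * k * w := by rw [h3]
    _ = (t + r • 1) * ((1 + r • t) * k) * w := by simp only [mul_assoc]
    _ = (t + r • 1) * w := by rw [hk, mul_one]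

lemma alg5 (r : ℂ) (s n i v u : A) (nni : n * i = 1) (nin : i * n = 1) (hu : u = n * v * i)
    (h : s * (u * (1 + r • s)) = u * (s + r • 1)) :
    (i * s * n) * v * (1 + r • (i * s * n)) = v * (i * s * n + r • 1) := by
  have e1 : (1 : A) + r • (i * s * n) = i * (1 + r • s) * n := by
    rw [mul_add, add_mul, mul_one, nin, mul_smul_comm, smul_mul_assoc]
  have e2 : i * s * n + r • (1 : A) = i * (s + r • 1) * n := by
    rw [mul_add, add_mul, mul_smul_comm, smul_mul_assoc, mul_one, nin]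
  rw [e1, e2]
  calc i * s * n * v * (i * (1 + r • s) * n) = i * (s * (n * v * i * (1 + r • s))) * n := by
        simp only [mul_assoc]
    _ = i * (u * (s + r • 1)) * n := by rw [← hu, h]
    _ = (i * n) * v * (i * (s + r • 1) * n) := by rw [hu]; simp only [mul_assoc]
    _ = v * (i * (s + r • 1) * n) := by rw [nin, one_mul]

lemma alg6 (r : ℂ) (z w h : A) (hh1 : (1 + r • z) * h = 1) (hh2 : h * (1 + r • z) = 1)
    (e : (1 + r • z) * w * z = (z + r • 1) * w) : w * z = (z + r • 1) * (h * w) := by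
  have e3 : (z + r • 1) * (1 + r • z) = (1 + r • z) * (z + r • 1) := by
    simp only [add_mul, mul_add, one_mul, mul_one, smul_mul_assoc, mul_smul_comm]
    module
  calc w * z = h * (1 + r • z) * (w * z) := by rw [hh2, one_mul]
    _ = h * ((1 + r • z) * w * z) := by simp only [mul_assoc]
    _ = h * ((z + r • 1) * w) := by rw [e]
    _ = h * ((z + r • 1) * ((1 + r • z) * h * w)) := by rw [hh1, one_mul]
    _ = h * ((z + r • 1) * (1 + r • z)) * (h * w) := by simp only [mul_assoc]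
    _ = h * (1 + r • z) * (z + r • 1) * (h * w) := by rw [e3]; simp only [mul_assoc]
    _ = (z + r • 1) * (h * w) := by rw [hh2, one_mul]

end alg


/-! ### coordinates -/

lemma omC_ne (n : ℤ) : (om n : ℂ) ≠ 0 := by
  exact_mod_cast (om_pos n).ne'

lemma co_act (h4 : S_OPC) (A : E →L[ℂ] E) (a : ℤ → ℂ) (s : ℤ)
    (hA : ∀ n, A (eb n) = a n • eb (n + s)) (f : E) (k : ℤ) :
    co (A f) (k + s) = a k * co f k := by
  obtain ⟨c1, -, -, -, -, c6, -, -, c9, c10, -⟩ := h4
  have adj : adjoint A (eb (k + s)) = (conj (a k) * ((om (k + s) : ℂ) / om k)) • eb k := by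
    apply c9
    intro n
    have e := c10 n (adjoint A (eb (k + s)))
    rw [adjoint_inner_right, hA, inner_smul_left, c10, c1] at e
    rw [c6, c1]
    by_cases hn : n = k
    · subst hn
      have h1 := omC_ne n
      simp only [if_true, mul_one] at e ⊢
      field_simp
      linear_combination -e
    · have hn' : ¬ (n + s = k + s) := by omega
      simp only [hn, hn', if_false, mul_zero] at e ⊢
      rcases mul_eq_zero.mp e.symm with h | h
      · exact absurd h (omC_ne n)
      · exact h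
  have e2 := c10 (k + s) (A f)
  rw [← adjoint_inner_left, adj, inner_smul_left, c10] at e2
  have h1 := omC_ne k
  have h2 := omC_ne (k + s)
  simp only [map_mul, map_div₀, Complex.conj_conj, Complex.conj_ofReal] at e2
  apply mul_left_cancel₀ h2
  rw [← e2]
  field_simp

/-- diagonal operators -/
lemma exists_diag (d : ℤ → ℂ) (C : ℝ) (hd : ∀ n, ‖d n‖ ≤ C) :
    ∃ D : E →L[ℂ] E, ∀ f n, co (D f) n = d n * co f n := by
  refine ⟨wsh 0 d C hd, fun f n => ?_⟩
  unfold co
  rw [wsh_apply, sub_zero, mul_div_assoc]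

/-- a bounded sequence contradicts the growth of the weights -/
lemma unb (h2 : S_OM) (ν : ℤ → ℝ) (c : ℝ) (hc : 0 < c) (hν : ∀ n, c * om n ≤ ν n) (n₀ : ℤ)
    (h : ∀ n, n₀ ≤ n → ν (n + 2) = ν n) : False := by
  obtain ⟨-, -, -, ht, -⟩ := h2
  set m : ℕ := n₀.toNat with hm
  have hm0 : n₀ ≤ (m : ℤ) := by omega
  have h3 : ∀ j : ℕ, ν ((m : ℤ) + 2 * j) = ν m := by
    intro j
    induction j with
    | zero => simp
    | succ j ih =>
      have e : (m : ℤ) + 2 * ((j + 1 : ℕ) : ℤ) = (m : ℤ) + 2 * j + 2 := by push_cast; ring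
      rw [e, h _ (by omega), ih]
  have h4 := (tendsto_atTop.mp ht (ν m / c + 1))
  obtain ⟨N₁, hN₁⟩ := eventually_atTop.mp h4
  have h5 := hN₁ (m + 2 * N₁) (by omega)
  have h6 := hν ((m : ℤ) + 2 * N₁)
  rw [h3 N₁] at h6
  have h7 : ((m + 2 * N₁ : ℕ) : ℤ) = (m : ℤ) + 2 * N₁ := by push_cast; ring
  rw [h7] at h5
  have h8 : om ((m : ℤ) + 2 * N₁) ≤ ν m / c := by
    rw [le_div_iff₀ hc]; linarith
  linarith


theorem fin (h1 : S_ALG) (h2 : S_OM) (h3 : S_OPA) (h4 : S_OPC) (h5 : S_INV) : S_FIN := by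
  intro r ν y c N Y W hr0 hr1 hc hν hN hNd hY hy hWN hWZ hWY
  have h4' := h4
  obtain ⟨c1, c2, -, c4, c5, c6, -, -, c9, c10, -, -, -, cAB, -, -, -, -⟩ := h4'
  obtain ⟨⟨zz1, zz2, zz3, zz4⟩, ⟨aZ, aZi⟩, ⟨eZ, -, eZ2, -, -, -⟩, -⟩ := h3
  have hνpos : ∀ n, 0 < ν n := fun n => lt_of_lt_of_le (mul_pos hc (om_pos n)) (hν n)
  have hνC : ∀ n, (ν n : ℂ) ≠ 0 := fun n => by exact_mod_cast (hνpos n).ne'
  -- action of N
  have hNe : ∀ n, N (eb n) = ((ν n : ℂ) / om n) • eb n := by
    intro n
    apply c9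
    intro m
    have e := c10 m (N (eb n))
    rw [hNd] at e
    rw [c6, c1]
    by_cases hmn : m = n
    · subst hmn
      simp only [if_true, mul_one] at e ⊢
      rw [eq_div_iff (omC_ne m), e, mul_comm]
    · simp only [hmn, if_false, mul_zero] at e ⊢
      rcases mul_eq_zero.mp e.symm with h | h
      · exact absurd h (omC_ne m)
      · exact h
  have hNco : ∀ f n, co (N f) n = ((ν n : ℂ) / om n) * co f n := by
    intro f n
    have := co_act h4 N (fun n => (ν n : ℂ) / om n) 0 (fun n => by simpa using hNe n) f n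
    simpa using this
  have hYco : ∀ f n, co (Y f) (n + 1) = y n * co f n := fun f n => co_act h4 Y y 1 hY f n
  -- the inverse of N
  obtain ⟨Ni, hNi⟩ := exists_diag (fun n => (om n : ℂ) / ν n) (1 / c) (by
    intro n
    have e : ((om n : ℂ) / ν n) = ((om n / ν n : ℝ) : ℂ) := by push_cast; rfl
    rw [e, Complex.norm_real, Real.norm_of_nonneg (div_nonneg (om_pos n).le (hνpos n).le),
      div_le_div_iff₀ (hνpos n) hc]
    linarith [hν n])
  have NNi : N * Ni = 1 := by
    apply cAB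
    intro n
    apply c9
    intro m
    change co (N (Ni (eb n))) m = co (eb n) m
    rw [hNco, hNi]
    have a1 := omC_ne m
    have a2 := hνC m
    field_simp
  have NiN : Ni * N = 1 := by
    apply cAB
    intro n
    apply c9
    intro m
    change co (Ni (N (eb n))) m = co (eb n) m
    rw [hNi, hNco]
    have a1 := omC_ne m
    have a2 := hνC m
    field_simp
  have hrn : ‖(r : ℂ)‖ < 1 := by
    rw [Complex.norm_real, Real.norm_of_nonneg hr0.le]; exact hr1
  have hrn' : ‖-(r : ℂ)‖ < 1 := by rw [norm_neg]; exact hrn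
  have r2 : ((1 - r ^ 2 : ℝ) : ℂ) = 1 - (r : ℂ) ^ 2 := by push_cast; ring
  rw [r2] at hWY
  obtain ⟨uG, -⟩ := h5 (r : ℂ) hrn
  obtain ⟨uH, -, uL, -⟩ := h5 (-(r : ℂ)) hrn'
  have eH : (1 : E →L[ℂ] E) - (-(r : ℂ)) • Z = 1 + (r : ℂ) • Z := by
    rw [neg_smul, sub_neg_eq_add]
  have eL : (1 : E →L[ℂ] E) - (-(r : ℂ)) • Z2 = 1 + (r : ℂ) • Z2 := by
    rw [neg_smul, sub_neg_eq_add]
  rw [eH] at uH
  rw [eL] at uL
  have hG1 := Ring.mul_inverse_cancel _ uG
  have hG2 := Ring.inverse_mul_cancel _ uG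
  have hH1 := Ring.mul_inverse_cancel _ uH
  have hH2 := Ring.inverse_mul_cancel _ uH
  have hL1 := Ring.mul_inverse_cancel _ uL
  set G : E →L[ℂ] E := Ring.inverse (1 - (r : ℂ) • Z) with hGdef
  set H : E →L[ℂ] E := Ring.inverse (1 + (r : ℂ) • Z) with hHdef
  set L : E →L[ℂ] E := Ring.inverse (1 + (r : ℂ) • Z2) with hLdef
  have wv : (W : E →L[ℂ] E) * ((W⁻¹ : (E →L[ℂ] E)ˣ) : E →L[ℂ] E) = 1 := W.mul_inv
  have vw : ((W⁻¹ : (E →L[ℂ] E)ˣ) : E →L[ℂ] E) * (W : E →L[ℂ] E) = 1 := W.inv_mul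
  set w : E →L[ℂ] E := (W : E →L[ℂ] E) with hw
  set v : E →L[ℂ] E := ((W⁻¹ : (E →L[ℂ] E)ˣ) : E →L[ℂ] E) with hv
  have R1 := alg1 (r : ℂ) Z w G hG1 hWZ
  have R2 := alg2 (r : ℂ) Z w G hG1 hG2 hWZ
  have R3 := alg3 (r : ℂ) Z w G Y H hG2 hH2 R1 hWY
  have R6 := alg6 (r : ℂ) Z w H hH1 hH2 R2
  -- adjoint relation
  have hu : star w = N * v * Ni := by
    have e1 : star w * N * w = N := hWN
    calc star w = star w * (N * Ni) := by rw [NNi, mul_one]
      _ = star w * N * (w * v) * Ni := by rw [wv, mul_one]; simp only [mul_assoc]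
      _ = (star w * N * w) * v * Ni := by simp only [mul_assoc]
      _ = N * v * Ni := by rw [e1]
  have sZ : star Z = Zs := aZ
  have R5' : Zs * (star w * (1 + (r : ℂ) • Zs)) = star w * (Zs + (r : ℂ) • 1) := by
    have e := congrArg star R2
    simp only [star_mul, star_add, star_smul, star_one, sZ] at e
    have e2 : star (r : ℂ) = (r : ℂ) := Complex.conj_ofReal r
    rw [e2] at e
    exact e
  have R5 := alg5 (r : ℂ) Zs N Ni v (star w) NNi NiN hu R5'
  have hts : (Ni * Z2 * N) * (Ni * Zs * N) = 1 := by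
    calc (Ni * Z2 * N) * (Ni * Zs * N) = Ni * Z2 * (N * Ni) * Zs * N := by simp only [mul_assoc]
      _ = Ni * (Z2 * Zs) * N := by rw [NNi, mul_one]; simp only [mul_assoc]
      _ = 1 := by rw [zz3, mul_one, NiN]
  have hst : (Ni * Zs * N) * (Ni * Z2 * N) = 1 := by
    calc (Ni * Zs * N) * (Ni * Z2 * N) = Ni * Zs * (N * Ni) * Z2 * N := by simp only [mul_assoc]
      _ = Ni * (Zs * Z2) * N := by rw [NNi, mul_one]; simp only [mul_assoc]
      _ = 1 := by rw [zz4, mul_one, NiN]
  have hk : (1 + (r : ℂ) • (Ni * Z2 * N)) * (Ni * L * N) = 1 := by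
    have e1 : (1 : E →L[ℂ] E) + (r : ℂ) • (Ni * Z2 * N) = Ni * (1 + (r : ℂ) • Z2) * N := by
      rw [mul_add, add_mul, mul_one, NiN, mul_smul_comm, smul_mul_assoc]
    calc (1 + (r : ℂ) • (Ni * Z2 * N)) * (Ni * L * N)
        = Ni * (1 + (r : ℂ) • Z2) * (N * Ni) * L * N := by rw [e1]; simp only [mul_assoc]
      _ = Ni * ((1 + (r : ℂ) • Z2) * L) * N := by rw [NNi, mul_one]; simp only [mul_assoc]
      _ = 1 := by rw [hL1, mul_one, NiN]
  have R4a := alg4a (r : ℂ) (Ni * Zs * N) (Ni * Z2 * N) v R5 hts hst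
  have R4 := alg4b (r : ℂ) (Ni * Z2 * N) v w (Ni * L * N) R4a wv vw hk
  set t : E →L[ℂ] E := Ni * Z2 * N with ht
  -- coordinates of t
  have tco : ∀ f k, co (t f) (k + 1) = ((ν k : ℂ) / ν (k + 1)) * co f k := by
    intro f k
    change co (Ni (Z2 (N f))) (k + 1) = _
    rw [hNi, c4, show k + 1 - 1 = k by ring, hNco]
    have e1 : (om (k + 1) : ℂ) = (om k : ℂ) * ((4 * (k : ℂ) + 3) / (4 * (k : ℂ) + 1)) := by
      have := om_succ k
      rw [this]; push_cast; ring
    rw [e1]
    have a1 := omC_ne k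
    have a2 := hνC (k + 1)
    have a3 : (4 * (k : ℂ) + 1) ≠ 0 := by
      have : (4 * k + 1 : ℤ) ≠ 0 := by omega
      exact_mod_cast this
    have a4 : (4 * (k : ℂ) + 3) ≠ 0 := by
      have : (4 * k + 3 : ℤ) ≠ 0 := by omega
      exact_mod_cast this
    have a5 : (4 * ((k + 1 : ℤ) : ℂ) - 3) = 4 * (k : ℂ) + 1 := by push_cast; ring
    have a6 : (4 * ((k + 1 : ℤ) : ℂ) - 1) = 4 * (k : ℂ) + 3 := by push_cast; ring
    rw [a5, a6]
    field_simp
  have te : ∀ n, t (eb n) = ((ν n : ℂ) / ν (n + 1)) • eb (n + 1) := by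
    intro n
    apply c9
    intro m
    have e := tco (eb n) (m - 1)
    rw [show m - 1 + 1 = m by ring, c1] at e
    rw [e, c6, c1]
    by_cases hmn : m = n + 1
    · subst hmn
      simp
    · have : ¬ (m - 1 = n) := by omega
      simp [hmn, this]
  have k1 : ∀ f k, co ((1 + (r : ℂ) • Z) f) k = co f k + r * co f (k - 1) := by
    intro f k
    change co (f + (r : ℂ) • Z f) k = _
    rw [c5, c6, c2]
  have k2 : ∀ f k, co ((Z + (r : ℂ) • (1 : E →L[ℂ] E)) f) k = co f (k - 1) + r * co f k := by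
    intro f k
    change co (Z f + (r : ℂ) • f) k = _
    rw [c5, c6, c2]
  have k3 : ∀ f k, co ((1 + (r : ℂ) • t) f) (k + 1) =
      co f (k + 1) + r * (((ν k : ℂ) / ν (k + 1)) * co f k) := by
    intro f k
    change co (f + (r : ℂ) • t f) (k + 1) = _
    rw [c5, c6, tco]
  have k4 : ∀ f k, co ((t + (r : ℂ) • (1 : E →L[ℂ] E)) f) (k + 1) =
      ((ν k : ℂ) / ν (k + 1)) * co f k + r * co f (k + 1) := by
    intro f k
    change co (t f + (r : ℂ) • f) (k + 1) = _
    rw [c5, c6, tco]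
  -- the vectors
  have hv1 : ∀ n, (1 + (r : ℂ) • Z) (H (w (eb n))) = w (eb n) := by
    intro n
    have e : ((1 + (r : ℂ) • Z) * H) (w (eb n)) = (1 : E →L[ℂ] E) (w (eb n)) := by rw [hH1]
    exact e
  have hv2 : ∀ n, w (eb (n + 1)) = (Z + (r : ℂ) • (1 : E →L[ℂ] E)) (H (w (eb n))) := by
    intro n
    have e : (w * Z) (eb n) = ((Z + (r : ℂ) • (1 : E →L[ℂ] E)) * (H * w)) (eb n) := by rw [R6]
    have e' : w (Z (eb n)) = (Z + (r : ℂ) • (1 : E →L[ℂ] E)) (H (w (eb n))) := e
    rw [eZ] at e'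
    exact e'
  have hL : ∀ n, (1 + (r : ℂ) • Z) (H (w (eb (n + 1)))) =
      (Z + (r : ℂ) • (1 : E →L[ℂ] E)) (H (w (eb n))) := by
    intro n
    rw [hv1, hv2]
  have hQ : ∀ n, ((ν n : ℂ) / ν (n + 1)) • ((1 + (r : ℂ) • t)
      ((Z + (r : ℂ) • (1 : E →L[ℂ] E)) (H (w (eb n))))) =
      (t + (r : ℂ) • (1 : E →L[ℂ] E)) ((1 + (r : ℂ) • Z) (H (w (eb n)))) := by
    intro n
    have e : ((1 + (r : ℂ) • t) * w * t) (eb n) = ((t + (r : ℂ) • (1 : E →L[ℂ] E)) * w) (eb n) := by
      rw [R4]
    have e' : (1 + (r : ℂ) • t) (w (t (eb n))) = (t + (r : ℂ) • (1 : E →L[ℂ] E)) (w (eb n)) := e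
    rw [te, map_smul, map_smul, hv2] at e'
    rw [hv1]
    exact e'
  have hYY : ∀ n, y n • ((1 + (r : ℂ) • Z)
      ((Z + (r : ℂ) • (1 : E →L[ℂ] E)) (H (w (eb n))))) =
      (1 - (r : ℂ) ^ 2) • Y (H (w (eb n))) := by
    intro n
    have e : ((1 + (r : ℂ) • Z) * w * Y) (eb n) = ((1 - (r : ℂ) ^ 2) • (Y * H * w)) (eb n) := by
      rw [R3]
    have e' : (1 + (r : ℂ) • Z) (w (Y (eb n))) = (1 - (r : ℂ) ^ 2) • Y (H (w (eb n))) := e
    rw [hY, map_smul, map_smul, hv2] at e'
    exact e'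
  obtain ⟨n₀, hn₀⟩ := h1 r (fun n => 1 - ν n / ν (n + 1)) ν y (fun n k => co (H (w (eb n))) k)
    hr0 hr1 hνpos (fun n => rfl) (by
      intro n
      by_contra hcon
      push Not at hcon
      have e0 : co (0 : E) = fun _ => 0 := by
        funext m
        have := c6 0 (0 : E) m
        rw [zero_smul, zero_mul] at this
        exact this
      have e1 : H (w (eb n)) = 0 := by
        apply c9
        intro m
        rw [e0]
        exact hcon m
      have e2 := hv1 n
      rw [e1, map_zero] at e2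
      have e3 : (v * w) (eb n) = (1 : E →L[ℂ] E) (eb n) := by rw [vw]
      have e4 : v (w (eb n)) = eb n := e3
      rw [← e2, map_zero] at e4
      have e5 := c1 n n
      rw [← e4, e0] at e5
      simp at e5) (by
      intro n k
      have e := congrArg (fun f => co f (k + 1)) (hQ n)
      simp only [c6, k3, k4, k1, k2, add_sub_cancel_right] at e
      simp only [Complex.ofReal_sub, Complex.ofReal_div, Complex.ofReal_one]
      linear_combination e) (by
      intro n k
      have e := congrArg (fun f => co f (k + 1)) (hYY n)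
      simp only [c6, k1, k2, hYco, add_sub_cancel_right] at e
      linear_combination -e) (by
      intro n k
      have e := congrArg (fun f => co f k) (hL n)
      simp only [k1, k2] at e
      exact e) (by
      intro M
      by_contra hcon
      push Not at hcon
      have e1 : ∀ n, M ≤ n → ν (n + 1) = ν n := by
        intro n hn
        have := hcon n hn
        have h6 := (hνpos (n + 1)).ne'
        have h7 : ν n / ν (n + 1) = 1 := by linarith
        rw [div_eq_one_iff_eq h6] at h7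
        exact h7.symm
      exact unb h2 ν c hc hν M (fun n hn => by
        have a1 := e1 n hn
        have a2 := e1 (n + 1) (by omega)
        rw [show n + 2 = n + 1 + 1 by ring, a2, a1])) hy
  exact unb h2 ν c hc hν n₀ hn₀

end Pool.Agent.W303.WH
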